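import Pool.Agent.H622R2.AcycSTRed
import Pool.Agent.NPC.Sat

/-!
# ACYC-ST with an arbitrary fixed connectivity `k ≥ 4`

To the multigraph for `k = 4` we add, for every vertex other than `s`, `t`, further `d` parallel
edges to `s` and `d` parallel edges to `t`.
-/

namespace Pool.Agent.NPC.Y605AC

open Pool.Agent.NPC Pool.Agent.H622R2 Pool.Agent.H622R2.Acyc

/-! ### General facts -/

section General

variable {E E' : List MEdge} {o : MEdge → Bool}

theorem notMem_of_disjoint {k : ℕ} {P : Fin k → List MEdge}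
    (hP : ∀ i j, i ≠ j → List.Disjoint (P i) (P j)) {f : Fin k → MEdge} (hf : ∀ i, f i ∈ P i)
    (B : List MEdge) (hB : B.length < k) : ∃ i, f i ∉ B := by
  by_contra hcon
  push Not at hcon
  have hinj : Function.Injective f := by
    intro i j hij
    by_contra hne
    exact hP i j hne (hf i) (hij ▸ hf j)
  have h1 : (Finset.univ.image f) ⊆ B.toFinset := by
    intro e he
    rw [Finset.mem_image] at he
    obtain ⟨i, _, rfl⟩ := he
    simpa using hcon i
  have h2 := Finset.card_le_card h1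
  rw [Finset.card_image_of_injective _ hinj, Finset.card_univ, Fintype.card_fin] at h2
  have h3 := List.toFinset_card_le B
  omega

theorem out_edge {k a b : ℕ} (h : HasDisjointPaths E o k a b) (hab : a ≠ b)
    (B : List MEdge) (hB : B.length < k) : ∃ e ∈ E, e.tail o = a ∧ e ∉ B := by
  obtain ⟨P, hP, hd⟩ := h
  have h1 : ∀ i, ∃ e ∈ P i, e ∈ E ∧ e.tail o = a := fun i => (hP i).1.first hab
  choose f hf hfE hfa using h1
  obtain ⟨i, hi⟩ := notMem_of_disjoint hd hf B hB
  exact ⟨f i, hfE i, hfa i, hi⟩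

theorem in_edge {k a b : ℕ} (h : HasDisjointPaths E o k a b) (hab : a ≠ b)
    (B : List MEdge) (hB : B.length < k) : ∃ e ∈ E, e.head o = b ∧ e ∉ B := by
  obtain ⟨P, hP, hd⟩ := h
  have h1 : ∀ i, ∃ e ∈ P i, e ∈ E ∧ e.head o = b := fun i => (hP i).1.last hab
  choose f hf hfE hfa using h1
  obtain ⟨i, hi⟩ := notMem_of_disjoint hd hf B hB
  exact ⟨f i, hfE i, hfa i, hi⟩

theorem walk_mono (hE : ∀ e ∈ E, e ∈ E') : ∀ {a b : ℕ} {p : List MEdge}, IsDiWalk E o a p b →
    IsDiWalk E' o a p b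
  | _, _, [], h => h
  | _, _, _ :: _, h => ⟨hE _ h.1, h.2.1, walk_mono hE h.2.2⟩

theorem walk_mem : ∀ {a b : ℕ} {p : List MEdge}, IsDiWalk E o a p b → ∀ e ∈ p, e ∈ E
  | _, _, [], _ => by simp
  | _, _, _ :: _, h => by
    intro e he
    rcases List.mem_cons.1 he with rfl | he
    · exact h.1
    · exact walk_mem h.2.2 e he

theorem add_paths {a b d : ℕ} (hE : ∀ e ∈ E, e ∈ E') (h : HasDisjointPaths E o 4 a b)
    (g : ℕ → MEdge) (hg : ∀ i < d, IsDiPath E' o a [g i] b) (hgE : ∀ i, g i ∉ E)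
    (hgi : Function.Injective g) : HasDisjointPaths E' o (4 + d) a b := by
  obtain ⟨P, hP, hd⟩ := h
  obtain ⟨Q, hQl, hQr⟩ : ∃ Q : Fin (4 + d) → List MEdge, (∀ i, Q (Fin.castAdd d i) = P i) ∧
      ∀ i : Fin d, Q (Fin.natAdd 4 i) = [g i.val] :=
    ⟨Fin.addCases P (fun i : Fin d => [g i.val]), fun i => by simp, fun i => by simp⟩
  refine ⟨Q, ?_, ?_⟩
  · intro i
    refine Fin.addCases (motive := fun i => IsDiPath E' o a (Q i) b) (fun i => ?_)
      (fun i => ?_) i
    · rw [hQl]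
      exact ⟨walk_mono hE (hP i).1, (hP i).2⟩
    · rw [hQr]
      exact hg i.val i.isLt
  · intro i j
    refine Fin.addCases (motive := fun i => i ≠ j → List.Disjoint (Q i) (Q j)) (fun i => ?_)
      (fun i => ?_) i
    · refine Fin.addCases (motive := fun j => Fin.castAdd d i ≠ j →
        List.Disjoint (Q (Fin.castAdd d i)) (Q j)) (fun j => ?_) (fun j => ?_) j <;> intro hij
      · rw [hQl, hQl]
        exact hd i j (fun h => hij (by rw [h]))
      · rw [hQl, hQr]
        intro e he he'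
        rw [List.mem_singleton] at he'
        subst he'
        exact hgE _ (walk_mem (hP i).1 _ he)
    · refine Fin.addCases (motive := fun j => Fin.natAdd 4 i ≠ j →
        List.Disjoint (Q (Fin.natAdd 4 i)) (Q j)) (fun j => ?_) (fun j => ?_) j <;> intro hij
      · rw [hQl, hQr]
        intro e he' he
        rw [List.mem_singleton] at he'
        subst he'
        exact hgE _ (walk_mem (hP j).1 _ he)
      · rw [hQr, hQr]
        intro e he he'
        rw [List.mem_singleton] at he he'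
        have h1 : i.val = j.val := hgi (he.symm.trans he')
        exact hij (by rw [Fin.ext h1])

end General

/-! ### The multigraph -/

/-- `d` further edges from `s` to `v` and from `v` to `t`. -/
def exE (d v : ℕ) : List MEdge := (List.range d).flatMap (fun i => [(4 + i, 0, v), (4 + i, v, 1)])

/-- The edges. -/
def redE' (d : ℕ) (φ : List Cl3) : List MEdge :=
  redE φ ++ ((redV φ).filter (fun v => decide (2 ≤ v))).flatMap (fun v => exE d v)

/-- The instance. -/
def acRed' (d : ℕ) (φ : List Cl3) : List ℕ × List MEdge × ℕ × ℕ × ℕ :=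
  (redV φ, redE' d φ, 0, 1, 4 + d)

theorem mem_exE {d v : ℕ} {e : MEdge} :
    e ∈ exE d v ↔ ∃ i < d, e = (4 + i, 0, v) ∨ e = (4 + i, v, 1) := by
  simp only [exE, List.mem_flatMap, List.mem_range, List.mem_cons, List.not_mem_nil, or_false]

theorem mem_redE' {d : ℕ} {φ : List Cl3} {e : MEdge} :
    e ∈ redE' d φ ↔ e ∈ redE φ ∨ ∃ v ∈ redV φ, 2 ≤ v ∧ e ∈ exE d v := by
  simp only [redE', List.mem_append, List.mem_flatMap, List.mem_filter, decide_eq_true_eq,
    and_assoc]

theorem label_le {φ : List Cl3} {e : MEdge} (he : e ∈ redE φ) : e.1 ≤ 3 := by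
  rw [mem_redE] at he
  rcases he with he | ⟨i, hi, he⟩ | ⟨y, hy, he⟩ | ⟨l, hl, he⟩
  · simp only [endE, List.mem_cons, List.not_mem_nil, or_false] at he
    rcases he with rfl | rfl | rfl | rfl | rfl | rfl | rfl | rfl <;> simp
  · simp only [clE, List.mem_cons, List.not_mem_nil, or_false] at he
    rcases he with rfl | rfl | rfl | rfl | rfl | rfl | rfl | rfl | rfl | rfl <;> simp
  · simp only [varE, List.mem_cons, List.not_mem_nil, or_false] at he
    rcases he with rfl | rfl | rfl | rfl | rfl | rfl | rfl | rfl | rfl <;> simp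
  · simp only [endE, List.mem_cons, List.not_mem_nil, or_false] at he
    rcases he with rfl | rfl | rfl | rfl | rfl | rfl | rfl | rfl <;> simp

theorem edge_at_W' {d : ℕ} {φ : List Cl3} {j : ℕ} {e : MEdge} (he : e ∈ redE' d φ)
    (h : e.2.1 = vW j ∨ e.2.2 = vW j) :
    e ∈ clE (clAt φ j) j ∨ ∃ i < d, e = (4 + i, 0, vW j) ∨ e = (4 + i, vW j, 1) := by
  rcases mem_redE'.1 he with he | ⟨v, hv, hv2, he⟩
  · exact Or.inl (edge_at_W he h).2
  · right
    obtain ⟨i, hi, rfl | rfl⟩ := mem_exE.1 he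
    · rcases h with h | h
      · simp only [vW] at h
        omega
      · dsimp only at h
        rw [← h]
        exact ⟨i, hi, Or.inl rfl⟩
    · rcases h with h | h
      · dsimp only at h
        rw [← h]
        exact ⟨i, hi, Or.inr rfl⟩
      · simp only [vW] at h
        omega

theorem edge_at_Y' {d : ℕ} {φ : List Cl3} {x : ℕ} {e : MEdge} (he : e ∈ redE' d φ)
    (h : e.2.1 = vY x ∨ e.2.2 = vY x) :
    e ∈ varE x ∨ ∃ i < d, e = (4 + i, 0, vY x) ∨ e = (4 + i, vY x, 1) := by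
  rcases mem_redE'.1 he with he | ⟨v, hv, hv2, he⟩
  · exact Or.inl (edge_at_Y he h).2
  · right
    obtain ⟨i, hi, rfl | rfl⟩ := mem_exE.1 he
    · rcases h with h | h
      · simp only [vY] at h
        omega
      · dsimp only at h
        rw [← h]
        exact ⟨i, hi, Or.inl rfl⟩
    · rcases h with h | h
      · dsimp only at h
        rw [← h]
        exact ⟨i, hi, Or.inr rfl⟩
      · simp only [vY] at h
        omega

/-! ### From a good orientation to an assignment -/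

section Back

variable {d : ℕ} {φ : List Cl3} {o : MEdge → Bool}
  (h : IsGoodOr (redV φ) (redE' d φ) 0 1 (4 + d) o)

/-- the further edges from `s` to `v` -/
def exS (d v : ℕ) : List MEdge := (List.range d).map (fun i => (4 + i, 0, v))

/-- the further edges from `v` to `t` -/
def exT (d v : ℕ) : List MEdge := (List.range d).map (fun i => (4 + i, v, 1))

theorem mem_exS {d v i : ℕ} (hi : i < d) : ((4 + i, 0, v) : MEdge) ∈ exS d v :=
  List.mem_map.2 ⟨i, List.mem_range.2 hi, rfl⟩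

theorem mem_exT {d v i : ℕ} (hi : i < d) : ((4 + i, v, 1) : MEdge) ∈ exT d v :=
  List.mem_map.2 ⟨i, List.mem_range.2 hi, rfl⟩

include h

theorem arc_W' {j : ℕ} (hj : j < φ.length) : HasArc (redE' d φ) o (vW j) 2 ∧
    (HasArc (redE' d φ) o (vLt (clAt φ j).1) (vW j) ∨
      HasArc (redE' d φ) o (vLt (clAt φ j).2.1) (vW j) ∨
      HasArc (redE' d φ) o (vLt (clAt φ j).2.2) (vW j)) := by
  have hV : vW j ∈ redV φ := (mem_redV _ _).2 (Or.inr (Or.inr (Or.inr (Or.inl ⟨j, hj, rfl⟩))))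
  have h0 : vW j ≠ 0 := by unfold vW; omega
  have h1 : vW j ≠ 1 := by unfold vW; omega
  have h2 : vW j ≠ 2 := by unfold vW; omega
  have hs := h.no_arc_source (by omega) hV h0 h1
  have hT := h.no_arc_target (by omega) hV h0 h1
  obtain ⟨hin, hout⟩ := h.2 _ hV h0 h1
  have hl := fun (l : Pool.Agent.H622R2.Lit) => (vLt_ne l).2.2.2.1 j
  have c1 : HasArc (redE' d φ) o (vW j) 2 := by
    obtain ⟨e, he, ht, hB⟩ := out_edge hout h1 ([(0, vLt (clAt φ j).1, vW j),
      (1, vLt (clAt φ j).2.1, vW j), (2, vLt (clAt φ j).2.2, vW j)] ++ exT d (vW j))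
      (by simp [exT]; omega)
    rw [List.mem_append, not_or] at hB
    have hat : e.2.1 = vW j ∨ e.2.2 = vW j := by
      rcases head_or_tail' o e with ⟨h3, _⟩ | ⟨h3, _⟩
      · exact Or.inl (h3 ▸ ht)
      · exact Or.inr (h3 ▸ ht)
    rcases edge_at_W' he hat with hcl | ⟨i, hi, rfl | rfl⟩
    · simp only [clE, List.mem_cons, List.not_mem_nil, or_false] at hcl hB
      rcases hcl with rfl | rfl | rfl | rfl | rfl | rfl | rfl | rfl | rfl | rfl
      · exact absurd (Or.inl rfl) hB.1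
      · exact absurd (Or.inr (Or.inl rfl)) hB.1
      · exact absurd (Or.inr (Or.inr rfl)) hB.1
      all_goals
        rcases head_or_tail' o _ with ⟨h3, h4⟩ | ⟨h3, h4⟩
        · first
          | exact ⟨_, he, ht, h4⟩
          | exact absurd (h3.symm.trans ht) (Ne.symm h0)
        · first
          | exact absurd (h3.symm.trans ht) (Ne.symm h2)
          | exact absurd ⟨_, he, ht, h4⟩ hs
    · rcases head_or_tail' o (4 + i, 0, vW j) with ⟨h3, h4⟩ | ⟨h3, h4⟩
      · exact absurd (h3.symm.trans ht) (Ne.symm h0)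
      · exact absurd ⟨_, he, ht, h4⟩ hs
    · exact absurd (mem_exT hi) hB.2
  refine ⟨c1, ?_⟩
  obtain ⟨e, he, ht, hB⟩ := in_edge hin (Ne.symm h0)
    ([(0, 0, vW j), (1, 0, vW j), (2, 0, vW j)] ++ exS d (vW j)) (by simp [exS]; omega)
  rw [List.mem_append, not_or] at hB
  have hat : e.2.1 = vW j ∨ e.2.2 = vW j := by
    rcases head_or_tail' o e with ⟨_, h3⟩ | ⟨_, h3⟩
    · exact Or.inr (h3 ▸ ht)
    · exact Or.inl (h3 ▸ ht)
  rcases edge_at_W' he hat with hcl | ⟨i, hi, rfl | rfl⟩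
  · simp only [clE, List.mem_cons, List.not_mem_nil, or_false] at hcl hB
    rcases hcl with rfl | rfl | rfl | rfl | rfl | rfl | rfl | rfl | rfl | rfl
    · left
      rcases head_or_tail' o _ with ⟨h3, h4⟩ | ⟨h3, h4⟩
      · exact ⟨_, he, h3, ht⟩
      · exact absurd (h4.symm.trans ht) (hl _)
    · right; left
      rcases head_or_tail' o _ with ⟨h3, h4⟩ | ⟨h3, h4⟩
      · exact ⟨_, he, h3, ht⟩
      · exact absurd (h4.symm.trans ht) (hl _)
    · right; right
      rcases head_or_tail' o _ with ⟨h3, h4⟩ | ⟨h3, h4⟩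
      · exact ⟨_, he, h3, ht⟩
      · exact absurd (h4.symm.trans ht) (hl _)
    iterate 4
      rcases head_or_tail' o _ with ⟨h3, h4⟩ | ⟨h3, h4⟩
      · exact absurd (h4.symm.trans ht) (Ne.symm h2)
      · exact (h.1.no_two c1 ⟨_, he, h3, ht⟩).elim
    · exact absurd (Or.inl rfl) hB.1
    · exact absurd (Or.inr (Or.inl rfl)) hB.1
    · exact absurd (Or.inr (Or.inr rfl)) hB.1
  · exact absurd (mem_exS hi) hB.2
  · rcases head_or_tail' o (4 + i, vW j, 1) with ⟨h3, h4⟩ | ⟨h3, h4⟩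
    · exact absurd (h4.symm.trans ht) (Ne.symm h1)
    · exact absurd ⟨_, he, h3, ht⟩ hT

theorem arc_Y' {x : ℕ} (hx : x ∈ varsOf φ) : HasArc (redE' d φ) o 2 (vY x) ∧
    (HasArc (redE' d φ) o (vY x) (vLt (true, x)) ∨
      HasArc (redE' d φ) o (vY x) (vLt (false, x))) := by
  have hV : vY x ∈ redV φ :=
    (mem_redV _ _).2 (Or.inr (Or.inr (Or.inr (Or.inr (Or.inl ⟨x, hx, rfl⟩)))))
  have h0 : vY x ≠ 0 := by unfold vY; omega
  have h1 : vY x ≠ 1 := by unfold vY; omega
  have h2 : vY x ≠ 2 := by unfold vY; omega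
  have hs := h.no_arc_source (by omega) hV h0 h1
  have hT := h.no_arc_target (by omega) hV h0 h1
  obtain ⟨hin, hout⟩ := h.2 _ hV h0 h1
  have hl := fun (l : Pool.Agent.H622R2.Lit) => (vLt_ne l).2.2.2.2 x
  have c1 : HasArc (redE' d φ) o 2 (vY x) := by
    obtain ⟨e, he, ht, hB⟩ := in_edge hin (Ne.symm h0) ([(0, vY x, vLt (true, x)),
      (0, vY x, vLt (false, x)), (0, 0, vY x)] ++ exS d (vY x)) (by simp [exS]; omega)
    rw [List.mem_append, not_or] at hB
    have hat : e.2.1 = vY x ∨ e.2.2 = vY x := by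
      rcases head_or_tail' o e with ⟨_, h3⟩ | ⟨_, h3⟩
      · exact Or.inr (h3 ▸ ht)
      · exact Or.inl (h3 ▸ ht)
    rcases edge_at_Y' he hat with hcl | ⟨i, hi, rfl | rfl⟩
    · simp only [varE, List.mem_cons, List.not_mem_nil, or_false] at hcl hB
      rcases hcl with rfl | rfl | rfl | rfl | rfl | rfl | rfl | rfl | rfl
      iterate 3
        rcases head_or_tail' o _ with ⟨h3, h4⟩ | ⟨h3, h4⟩
        · exact ⟨_, he, h3, ht⟩
        · exact absurd (h4.symm.trans ht) (Ne.symm h2)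
      · exact absurd (Or.inl rfl) hB.1
      · exact absurd (Or.inr (Or.inl rfl)) hB.1
      · exact absurd (Or.inr (Or.inr rfl)) hB.1
      all_goals
        rcases head_or_tail' o _ with ⟨h3, h4⟩ | ⟨h3, h4⟩
        · exact absurd (h4.symm.trans ht) (Ne.symm h1)
        · exact absurd ⟨_, he, h3, ht⟩ hT
    · exact absurd (mem_exS hi) hB.2
    · rcases head_or_tail' o (4 + i, vY x, 1) with ⟨h3, h4⟩ | ⟨h3, h4⟩
      · exact absurd (h4.symm.trans ht) (Ne.symm h1)
      · exact absurd ⟨_, he, h3, ht⟩ hT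
  refine ⟨c1, ?_⟩
  obtain ⟨e, he, ht, hB⟩ := out_edge hout h1
    ([(0, vY x, 1), (1, vY x, 1), (2, vY x, 1)] ++ exT d (vY x)) (by simp [exT]; omega)
  rw [List.mem_append, not_or] at hB
  have hat : e.2.1 = vY x ∨ e.2.2 = vY x := by
    rcases head_or_tail' o e with ⟨h3, _⟩ | ⟨h3, _⟩
    · exact Or.inl (h3 ▸ ht)
    · exact Or.inr (h3 ▸ ht)
  rcases edge_at_Y' he hat with hcl | ⟨i, hi, rfl | rfl⟩
  · simp only [varE, List.mem_cons, List.not_mem_nil, or_false] at hcl hB
    rcases hcl with rfl | rfl | rfl | rfl | rfl | rfl | rfl | rfl | rfl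
    iterate 3
      rcases head_or_tail' o _ with ⟨h3, h4⟩ | ⟨h3, h4⟩
      · exact absurd (h3.symm.trans ht) (Ne.symm h2)
      · exact (h.1.no_two c1 ⟨_, he, ht, h4⟩).elim
    · left
      rcases head_or_tail' o _ with ⟨h3, h4⟩ | ⟨h3, h4⟩
      · exact ⟨_, he, h3, h4⟩
      · exact absurd (h3.symm.trans ht) (hl _)
    · right
      rcases head_or_tail' o _ with ⟨h3, h4⟩ | ⟨h3, h4⟩
      · exact ⟨_, he, h3, h4⟩
      · exact absurd (h3.symm.trans ht) (hl _)
    · rcases head_or_tail' o _ with ⟨h3, h4⟩ | ⟨h3, h4⟩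
      · exact absurd (h3.symm.trans ht) (Ne.symm h0)
      · exact absurd ⟨_, he, ht, h4⟩ hs
    · exact absurd (Or.inl rfl) hB.1
    · exact absurd (Or.inr (Or.inl rfl)) hB.1
    · exact absurd (Or.inr (Or.inr rfl)) hB.1
  · rcases head_or_tail' o (4 + i, 0, vY x) with ⟨h3, h4⟩ | ⟨h3, h4⟩
    · exact absurd (h3.symm.trans ht) (Ne.symm h0)
    · exact absurd ⟨_, he, ht, h4⟩ hs
  · exact absurd (mem_exT hi) hB.2

theorem sat_of_good' : Sat3 φ := by
  classical
  refine ⟨fun x => decide (HasArc (redE' d φ) o (vY x) (vLt (false, x))), ?_⟩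
  have key : ∀ l : Pool.Agent.H622R2.Lit, l.2 ∈ varsOf φ → ¬ HasArc (redE' d φ) o (vY l.2) (vLt l) →
      decide (HasArc (redE' d φ) o (vY l.2) (vLt (false, l.2))) = l.1 := by
    rintro ⟨b, x⟩ hx hn
    have h1 := (arc_Y' h hx).2
    cases b
    · exact decide_eq_false hn
    · exact decide_eq_true (h1.resolve_left hn)
  intro c hc
  obtain ⟨j, hj, rfl⟩ : ∃ j < φ.length, clAt φ j = c := by
    obtain ⟨j, hj, hjc⟩ := List.getElem_of_mem hc
    refine ⟨j, hj, ?_⟩
    unfold clAt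
    rw [List.getD_eq_getElem?_getD, List.getElem?_eq_getElem hj, Option.getD_some, hjc]
  obtain ⟨c1, c2, c3⟩ := mem_varsOf_clAt hj
  obtain ⟨hW, hlit⟩ := arc_W' h hj
  rcases hlit with hlit | hlit | hlit
  · left
    exact key _ c1 fun ha => h.1.no_four hlit hW (arc_Y' h c1).1 ha
  · right; left
    exact key _ c2 fun ha => h.1.no_four hlit hW (arc_Y' h c2).1 ha
  · right; right
    exact key _ c3 fun ha => h.1.no_four hlit hW (arc_Y' h c3).1 ha

end Back

/-! ### From an assignment to a good orientation -/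

theorem rk_bounds {φ : List Cl3} (τ : ℕ → Bool) {v : ℕ} (hv : v ∈ redV φ) (h2 : 2 ≤ v) :
    0 < rk τ v ∧ rk τ v < 6 := by
  rw [mem_redV] at hv
  rcases hv with hv | hv | rfl | ⟨j, hj, rfl⟩ | ⟨x, hx, rfl⟩ | ⟨l, hl, rfl⟩
  · omega
  · omega
  · have : rk τ 2 = 3 := rfl
    omega
  · rw [rk_W]
    omega
  · rw [rk_Y]
    omega
  · rw [rk_L]
    split_ifs <;> omega

theorem good_of_sat' (d : ℕ) {φ : List Cl3} {τ : ℕ → Bool}
    (hτ : ∀ c ∈ φ, τ c.1.2 = c.1.1 ∨ τ c.2.1.2 = c.2.1.1 ∨ τ c.2.2.2 = c.2.2.1) :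
    IsGoodOr (redV φ) (redE' d φ) 0 1 (4 + d) (orr τ) := by
  have hg := good_of_sat hτ
  have k0 : rk τ 0 = 0 := rfl
  have k1 : rk τ 1 = 6 := rfl
  constructor
  · apply isAcyclicOr_of_rank (rk τ)
    intro e he
    have hne : rk τ e.2.1 ≠ rk τ e.2.2 := by
      rcases mem_redE'.1 he with he | ⟨v, hv, hv2, he⟩
      · exact rk_ne τ he
      · obtain ⟨h3, h4⟩ := rk_bounds τ hv hv2
        obtain ⟨i, hi, rfl | rfl⟩ := mem_exE.1 he
        · dsimp only
          omega
        · dsimp only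
          omega
    unfold MEdge.tail MEdge.head orr
    by_cases hlt : rk τ e.2.1 < rk τ e.2.2
    · simp [hlt]
    · have : rk τ e.2.2 < rk τ e.2.1 := by omega
      simp [hlt, this]
  · intro v hv h0 h1
    have hv2 : 2 ≤ v := by omega
    obtain ⟨h3, h4⟩ := rk_bounds τ hv hv2
    obtain ⟨hin, hout⟩ := hg.2 v hv h0 h1
    have hsub : ∀ e ∈ redE φ, e ∈ redE' d φ := fun e he => mem_redE'.2 (Or.inl he)
    constructor
    · refine add_paths hsub hin (fun i => (4 + i, 0, v)) ?_ ?_ ?_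
      · intro i hi
        exact path1 (e := (4 + i, 0, v))
          (mem_redE'.2 (Or.inr ⟨v, hv, hv2, mem_exE.2 ⟨i, hi, Or.inl rfl⟩⟩))
          (by simp [orr, k0, h3]) (Ne.symm h0)
      · intro i hi
        have := label_le hi
        dsimp only at this
        omega
      · intro i j hij
        simpa using hij
    · refine add_paths hsub hout (fun i => (4 + i, v, 1)) ?_ ?_ ?_
      · intro i hi
        exact path1 (e := (4 + i, v, 1))
          (mem_redE'.2 (Or.inr ⟨v, hv, hv2, mem_exE.2 ⟨i, hi, Or.inr rfl⟩⟩))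
          (by simp [orr, k1, h4]) h1
      · intro i hi
        have := label_le hi
        dsimp only at this
        omega
      · intro i j hij
        simpa using hij

theorem valid' (d : ℕ) (φ : List Cl3) : (0 ∈ redV φ ∧ 1 ∈ redV φ ∧ ∀ e ∈ redE' d φ,
    e.2.1 ∈ redV φ ∧ e.2.2 ∈ redV φ) := by
  obtain ⟨h0, h1, h2⟩ := valid φ
  refine ⟨h0, h1, fun e he => ?_⟩
  rcases mem_redE'.1 he with he | ⟨v, hv, hv2, he⟩
  · exact h2 e he
  · obtain ⟨i, hi, rfl | rfl⟩ := mem_exE.1 he
    · exact ⟨h0, hv⟩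
    · exact ⟨hv, h1⟩

theorem acRed'_correct (d : ℕ) (φ : List Cl3) : Sat3 φ ↔ AcycST (acRed' d φ) := by
  constructor
  · rintro ⟨τ, hτ⟩
    exact ⟨valid' d φ, orr τ, good_of_sat' d hτ⟩
  · rintro ⟨_, o, ho⟩
    exact sat_of_good' ho

theorem acRed'_poly (d : ℕ) : Poly (acRed' d) := by
  have h1 : Poly (fun φ : List Cl3 => redV φ) := Poly.fst acRed_poly
  have h2 : Poly (fun φ : List Cl3 => redE φ) := Poly.fst (Poly.snd acRed_poly)
  have h3 : Poly (fun φ : List Cl3 => (redV φ).filter (fun v => decide (2 ≤ v))) :=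
    Poly.filter (p := fun (_ : List Cl3) (v : ℕ) => decide (2 ≤ v)) h1
      (Poly.decide_le (Poly.const 2) (Poly.snd Poly.id))
  have h4 : Poly (fun v : ℕ => exE d v) := by
    refine Poly.flatMap (F := fun (v : ℕ) (i : ℕ) => [((4 + i, 0, v) : MEdge), (4 + i, v, 1)])
      (Poly.const (List.range d)) ?_
    have hv : Poly (fun p : ℕ × ℕ => p.1) := Poly.fst Poly.id
    have hi : Poly (fun p : ℕ × ℕ => 4 + p.2) := Poly.add (Poly.const 4) (Poly.snd Poly.id)
    exact Poly.cons (Poly.pair hi (Poly.pair (Poly.const 0) hv))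
      (Poly.cons (Poly.pair hi (Poly.pair hv (Poly.const 1))) (Poly.const []))
  have h5 : Poly (fun φ : List Cl3 =>
      ((redV φ).filter (fun v => decide (2 ≤ v))).flatMap (fun v => exE d v)) :=
    Poly.flatMap (F := fun (_ : List Cl3) (v : ℕ) => exE d v) h3 (h4.comp (Poly.snd Poly.id))
  exact Poly.pair h1 (Poly.pair (Poly.append h2 h5) (Poly.const _))

end Pool.Agent.NPC.Y605AC
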